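import Pool.Agent.H49.G.R_seed8.Y751.VK.Lam0
import Pool.Agent.H49.G.R_seed8.Y957.VK.Triv
import Pool.Agent.H49.G.R_seed8.Y306.VK.Zeta
import Pool.Agent.H49.G.R_seed8.Y125.VK.Shift
import Pool.Agent.H49.G.R_seed8.Y235.VK.Hol
import Pool.Agent.H49.G.R_seed8.Y288.VK.Tw
import Pool.Agent.H49.G.R_seed8.Y309.VK.DA
import Pool.Agent.H49.G.R_seed8.Y331.VK.Lin
import Pool.Agent.H49.G.R_seed8.Y331.VK.WB
import Pool.Agent.H49.G.R_seed8.Y70.VK.Tn
import Pool.Agent.H49.G.R_seed8.Y824.VK.Zs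
import Pool.Agent.H49.G.R_seed8.Y901.VK.Vmvt
import Pool.Agent.H49.G.R_seed8.Y911.VK.Cond
import Pool.Agent.H49.G.R_seed8.Y93.VK.DB
import Pool.Agent.H49.G.R_seed8.Y950.VK.Cnt
import Pool.Agent.H49.G.R_seed8.Y957.VK.Stm2

set_option autoImplicit false

/-!
Project VK (helper957), job LAM: twisted sums of `Λ - 1`.  The upper bound `S_ZETA` is taken from the first
part of the project.
-/

namespace Pool.Agent.Y751.VK

open Pool.Agent.Y957.VK

/-- the upper bound for the zeta function, unconditionally -/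
theorem zeta_un : S_ZETA :=
  Pool.Agent.Y306.VK.zeta_up (Pool.Agent.Y824.VK.zs Pool.Agent.Y125.VK.shift
    (Pool.Agent.Y70.VK.tn
      (Pool.Agent.Y901.VK.vmvt
        (rec_of Pool.Agent.Y235.VK.hol (Pool.Agent.Y950.VK.cnt Pool.Agent.Y331.VK.lin))
        Pool.Agent.Y911.VK.cond)
      (dbl_of Pool.Agent.Y309.VK.da Pool.Agent.Y93.VK.db)
      (Pool.Agent.Y288.VK.tw Pool.Agent.Y331.VK.wb)))

/-- Job LAM. -/
theorem lam (h : S_INV) : S_LAM := lam_of zeta_un h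

end Pool.Agent.Y751.VK
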