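import Pool.Agent.H49.G.R_seed8.Y957.VK.Stm

set_option autoImplicit false

/-!
Project VK (helper957), job LAM: the continuation of the Dirichlet series of `Λ - 1` and its bound.
-/

open Complex Filter Topology Set MeasureTheory Metric
open scoped Real

namespace Pool.Agent.Y751.VK

open Pool.Agent.Y957.VK (S_INV S_ZETA)

/-- the continuation of the Dirichlet series of `Λ - 1` -/
noncomputable def QQ (s : ℂ) : ℂ := -(deriv riemannZeta₁ s / riemannZeta₁ s) - riemannZeta₀ s

lemma QQ_eq {s : ℂ} (hs : s ≠ 1) (hF : riemannZeta₁ s ≠ 0) :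
    QQ s = -(deriv riemannZeta s / riemannZeta s) - riemannZeta s := by
  have h1 : s - 1 ≠ 0 := sub_ne_zero.2 hs
  have h2 : deriv riemannZeta s / riemannZeta s =
      -(s - 1)⁻¹ + deriv riemannZeta₁ s / riemannZeta₁ s := by
    rw [deriv_riemannZeta_eq_neg_inv_sub_sq_mul_add hs, riemannZeta_eq_inv_sub_mul hs]
    field_simp
  have h3 := riemannZeta_eq_inv_sub_add hs
  unfold QQ
  rw [h2, h3]
  ring

lemma zeta_ne {s : ℂ} (hs : s ≠ 1) (hF : riemannZeta₁ s ≠ 0) : riemannZeta s ≠ 0 := by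
  rw [riemannZeta_eq_inv_sub_mul hs]
  exact mul_ne_zero (inv_ne_zero (sub_ne_zero.2 hs)) hF

lemma zeta_inv {s : ℂ} (hs : s ≠ 1) (hF : riemannZeta₁ s ≠ 0) :
    (riemannZeta s)⁻¹ = (s - 1) / riemannZeta₁ s := by
  have h1 : s - 1 ≠ 0 := sub_ne_zero.2 hs
  rw [riemannZeta_eq_inv_sub_mul hs]
  field_simp

lemma one_le_log {x : ℝ} (hx : 3 ≤ x) : 1 ≤ Real.log x := by
  rw [Real.le_log_iff_exp_le (by linarith)]
  have := Real.exp_one_lt_d9
  linarith

theorem QQ_bound (hz : S_ZETA) (hi : S_INV) : ∃ δ K T₀ : ℝ, 0 < δ ∧ δ < 1 ∧ 1 ≤ K ∧ 3 ≤ T₀ ∧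
    ∀ (T : ℝ) (s : ℂ), T₀ ≤ T → |s.im| ≤ T → 1 - (Real.log T) ^ (δ - 1) ≤ s.re → s.re ≤ 2 →
      riemannZeta₁ s ≠ 0 ∧ ‖QQ s‖ ≤ (Real.log T) ^ K := by
  obtain ⟨δ1, K1, T1, hδ1, hδ1', hK1, hT1, hI⟩ := hi
  obtain ⟨δ2, K2, t2, hδ2, hδ2', hK2, ht2, hZ⟩ := hz
  set δm := min δ1 δ2 with hδm
  have hm0 : 0 < δm := lt_min hδ1 hδ2
  have hm1 : δm ≤ δ1 := min_le_left _ _
  have hm2 : δm ≤ δ2 := min_le_right _ _
  -- the low part
  set U := max T1 (t2 + 2) with hU
  have hU1 : T1 ≤ U := le_max_left _ _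
  have hU2 : t2 + 2 ≤ U := le_max_right _ _
  set η := (Real.log U) ^ (δ1 - 1) with hη
  have hlU : 1 ≤ Real.log U := one_le_log (by linarith)
  have hη0 : 0 < η := Real.rpow_pos_of_pos (by linarith) _
  obtain ⟨B, hB⟩ : ∃ B : ℝ, ∀ s : ℂ, |s.im| ≤ t2 + 2 → 1 - η ≤ s.re → s.re ≤ 2 → ‖QQ s‖ ≤ B := by
    let P : Set ℂ := Set.Icc (1 - η) 2 ×ℂ Set.Icc (-(t2 + 2)) (t2 + 2)
    have hP : IsCompact P := isCompact_Icc.reProdIm isCompact_Icc
    have hc : ContinuousOn QQ P := by
      unfold QQ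
      apply ContinuousOn.sub
      · apply ContinuousOn.neg
        apply ContinuousOn.div
        · exact differentiable_riemannZeta₁.deriv.continuous.continuousOn
        · exact differentiable_riemannZeta₁.continuous.continuousOn
        · intro s hs
          exact (hI U s hU1 ((abs_le.2 hs.2).trans hU2) hs.1.1 hs.1.2).1
      · exact differentiable_riemannZeta₀.continuous.continuousOn
    obtain ⟨B, hB⟩ := hP.exists_bound_of_continuousOn hc
    exact ⟨B, fun s h1 h2 h3 => hB s ⟨⟨h2, h3⟩, abs_le.1 h1⟩⟩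
  have hlog : Tendsto Real.log atTop atTop := Real.tendsto_log_atTop
  set δ := δm / 2 with hδ
  have hδ0 : 0 < δ := by positivity
  have hδ1x : δ < 1 := by linarith
  have e1 : ∀ᶠ T : ℝ in atTop, (Real.log T) ^ (δ - 1) ≤ η := by
    have h1 : Tendsto (fun x : ℝ => x ^ (-(1 - δ))) atTop (𝓝 0) :=
      tendsto_rpow_neg_atTop (by linarith)
    have h3 : ∀ᶠ T : ℝ in atTop, ((fun x : ℝ => x ^ (-(1 - δ))) ∘ Real.log) T < η :=
      (h1.comp hlog).eventually (gt_mem_nhds hη0)
    filter_upwards [h3] with T hT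
    have : δ - 1 = -(1 - δ) := by ring
    rw [this]
    exact hT.le
  have e2 : ∀ᶠ T : ℝ in atTop, B ≤ (Real.log T) ^ (K1 + 3) := by
    have h1 : Tendsto (fun x : ℝ => x ^ (K1 + 3)) atTop atTop := tendsto_rpow_atTop (by linarith)
    exact (h1.comp hlog).eventually_ge_atTop B
  have e4 : ∀ᶠ T : ℝ in atTop, 8 ≤ (Real.log T) ^ δ := by
    have h1 : Tendsto (fun x : ℝ => x ^ δ) atTop atTop := tendsto_rpow_atTop hδ0
    exact (h1.comp hlog).eventually_ge_atTop 8
  have e5 : ∀ᶠ T : ℝ in atTop, 10 * K2 ≤ Real.log T := hlog.eventually_ge_atTop _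
  obtain ⟨T₀, hT₀⟩ := eventually_atTop.1 (e1.and (e2.and (e4.and (e5.and
    (eventually_ge_atTop (max 3 T1))))))
  refine ⟨δ, K1 + 3, T₀, hδ0, hδ1x, by linarith, (le_max_left _ _).trans (hT₀ T₀ le_rfl).2.2.2.2,
    ?_⟩
  intro T s hT him hre1 hre2
  obtain ⟨f1, f2, f4, f5, f6⟩ := hT₀ T hT
  have hT3 : 3 ≤ T := (le_max_left _ _).trans f6
  have hTT1 : T1 ≤ T := (le_max_right _ _).trans f6
  have hlT : 1 ≤ Real.log T := one_le_log hT3
  have hlT0 : 0 < Real.log T := by linarith
  have hw1 : (Real.log T) ^ (δ - 1) ≤ (Real.log T) ^ (δ1 - 1) :=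
    Real.rpow_le_rpow_of_exponent_le hlT (by linarith)
  obtain ⟨g1, g2⟩ := hI T s hTT1 him (by linarith) hre2
  refine ⟨g1, ?_⟩
  rcases le_or_gt |s.im| (t2 + 2) with hs | hs
  · exact (hB s hs (by linarith) hre2).trans f2
  · have hs1 : s ≠ 1 := by
      rintro rfl
      simp at hs
      linarith
    -- `log (2T) ≤ 2 log T`
    have hl2 : Real.log (2 * T) ≤ 2 * Real.log T := by
      have h1 : Real.log (2 * T) ≤ Real.log (T ^ 2) := Real.log_le_log (by linarith) (by nlinarith)
      rw [Real.log_pow] at h1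
      exact_mod_cast h1
    have hl2' : Real.log T ≤ Real.log (2 * T) := Real.log_le_log (by linarith) (by linarith)
    set W := (Real.log (2 * T)) ^ (δm - 1) with hW
    have hW0 : 0 < W := Real.rpow_pos_of_pos (by linarith) _
    have hW1 : W ≤ 1 := Real.rpow_le_one_of_one_le_of_nonpos (by linarith) (by linarith)
    -- `(log T)^(δ - 1) ≤ W / 4`
    have hWT : (Real.log T) ^ (δ - 1) ≤ W / 4 := by
      have h1 : (2 * Real.log T) ^ (δm - 1) ≤ W :=
        Real.rpow_le_rpow_of_nonpos (by linarith) hl2 (by linarith)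
      rw [Real.mul_rpow (by norm_num) hlT0.le] at h1
      have h2 : (1 : ℝ) / 2 ≤ 2 ^ (δm - 1) := by
        have h6 : (2 : ℝ) ^ (-1 : ℝ) ≤ 2 ^ (δm - 1) :=
          Real.rpow_le_rpow_of_exponent_le (by norm_num) (by linarith)
        rw [Real.rpow_neg_one] at h6
        linarith
      have h3 : (Real.log T) ^ (δm - 1) = (Real.log T) ^ (δ - 1) * (Real.log T) ^ δ := by
        rw [← Real.rpow_add hlT0]
        congr 1
        rw [hδ]
        ring
      have h4 : 0 < (Real.log T) ^ (δ - 1) := Real.rpow_pos_of_pos hlT0 _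
      have h5 : 8 * (Real.log T) ^ (δ - 1) ≤ (Real.log T) ^ (δm - 1) := by
        rw [h3, mul_comm]
        exact mul_le_mul_of_nonneg_left f4 h4.le
      have h6 : 0 < (Real.log T) ^ (δm - 1) := Real.rpow_pos_of_pos hlT0 _
      have h7 := mul_le_mul_of_nonneg_right h2 h6.le
      linarith
    -- the points of the disc
    have hdisc : ∀ z ∈ closedBall s (W / 2), t2 ≤ |z.im| ∧ ‖riemannZeta z‖ ≤ K2 * (2 * Real.log T) := by
      intro z hz
      rw [mem_closedBall, dist_eq_norm] at hz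
      have h1 : |z.im - s.im| ≤ W / 2 := by
        have := Complex.abs_im_le_norm (z - s)
        rw [Complex.sub_im] at this
        linarith
      have h2 : |z.re - s.re| ≤ W / 2 := by
        have := Complex.abs_re_le_norm (z - s)
        rw [Complex.sub_re] at this
        linarith
      have h3 : |s.im| - W / 2 ≤ |z.im| := by
        have := abs_sub_abs_le_abs_sub s.im z.im
        rw [abs_sub_comm] at this
        linarith
      have h4 : |z.im| ≤ |s.im| + W / 2 := by
        have := abs_sub_abs_le_abs_sub z.im s.im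
        linarith
      have h5 : t2 ≤ |z.im| := by linarith
      have h6 : Real.log |z.im| ≤ Real.log (2 * T) := Real.log_le_log (by linarith) (by linarith)
      have h7 : 1 ≤ Real.log |z.im| := one_le_log (by linarith)
      have h8 : W ≤ (Real.log |z.im|) ^ (δ2 - 1) := by
        calc W ≤ (Real.log |z.im|) ^ (δm - 1) :=
              Real.rpow_le_rpow_of_nonpos (by linarith) h6 (by linarith)
          _ ≤ _ := Real.rpow_le_rpow_of_exponent_le h7 (by linarith)
      have h9 := abs_le.1 h2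
      have h10 := hZ z.re z.im h5 (by linarith) (by linarith)
      refine ⟨h5, ?_⟩
      have h11 : (⟨z.re, z.im⟩ : ℂ) = z := rfl
      rw [h11] at h10
      refine h10.trans ?_
      exact mul_le_mul_of_nonneg_left (h6.trans hl2) (by linarith)
    have hdiff : DiffContOnCl ℂ riemannZeta (ball s (W / 2)) := by
      apply DifferentiableOn.diffContOnCl
      rw [closure_ball _ (by positivity)]
      intro z hz
      apply (differentiableAt_riemannZeta _).differentiableWithinAt
      rintro rfl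
      have := (hdisc 1 hz).1
      simp at this
      linarith
    have hder : ‖deriv riemannZeta s‖ ≤ K2 * (2 * Real.log T) / (W / 2) :=
      norm_deriv_le_of_forall_mem_sphere_norm_le (by positivity) hdiff
        fun z hz => (hdisc z (sphere_subset_closedBall hz)).2
    have hzs := (hdisc s (mem_closedBall_self (by positivity))).2
    have hinv : ‖(riemannZeta s)⁻¹‖ ≤ (Real.log T) ^ K1 := by
      rw [zeta_inv hs1 g1]
      exact g2
    have hWi : 1 / W ≤ 2 * Real.log T := by
      rw [hW, one_div, ← Real.rpow_neg (by linarith)]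
      calc (Real.log (2 * T)) ^ (-(δm - 1)) ≤ (Real.log (2 * T)) ^ (1 : ℝ) :=
            Real.rpow_le_rpow_of_exponent_le (by linarith) (by linarith)
        _ = Real.log (2 * T) := Real.rpow_one _
        _ ≤ _ := hl2
    set l := Real.log T with hl
    set H := l ^ K1 with hH
    have hH0 : 0 < H := Real.rpow_pos_of_pos hlT0 _
    have hH1 : 1 ≤ H := Real.one_le_rpow hlT (by linarith)
    have hder2 : ‖deriv riemannZeta s‖ ≤ 8 * K2 * l ^ 2 := by
      refine hder.trans ?_
      have h1 : K2 * (2 * l) / (W / 2) = 4 * K2 * l * (1 / W) := by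
        field_simp
        ring
      rw [h1]
      have h2 : 0 ≤ 4 * K2 * l := by positivity
      nlinarith [mul_le_mul_of_nonneg_left hWi h2]
    rw [QQ_eq hs1 g1, div_eq_mul_inv]
    have h20 : ‖-(deriv riemannZeta s * (riemannZeta s)⁻¹) - riemannZeta s‖ ≤
        8 * K2 * l ^ 2 * H + K2 * (2 * l) := by
      refine (norm_sub_le _ _).trans ?_
      rw [norm_neg, norm_mul]
      exact add_le_add (mul_le_mul hder2 hinv (norm_nonneg _) (by positivity)) hzs
    refine h20.trans ?_
    have h21 : l ^ (K1 + 3) = H * l ^ 3 := by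
      rw [Real.rpow_add hlT0, hH]
      congr 1
      exact_mod_cast Real.rpow_natCast l 3
    rw [h21]
    have h22 : K2 * (2 * l) ≤ 2 * K2 * l ^ 2 * H := by
      have h1 : l ≤ l ^ 2 * H := by nlinarith [mul_le_mul hlT hH1 (by norm_num) (by linarith)]
      have h2 : 0 ≤ 2 * K2 := by positivity
      nlinarith [mul_le_mul_of_nonneg_left h1 h2]
    have h23 : 10 * K2 * (l ^ 2 * H) ≤ l * (l ^ 2 * H) :=
      mul_le_mul_of_nonneg_right f5 (by positivity)
    nlinarith

end Pool.Agent.Y751.VK
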